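import Pool.Agent.H611R3.ZL.Bwd3

/-!
Commutants of bounded strongly continuous representations of compact groups on Banach spaces,
part one.
-/

set_option autoImplicit false
set_option linter.unusedSectionVars false
set_option linter.overlappingInstances false

open MeasureTheory Filter Topology
open H611R3.ZL

namespace Pool.Agent.Y251.RQ

universe u v w

/-- a bounded strongly continuous representation -/
structure BRep (G : Type u) [Group G] [TopologicalSpace G] (X : Type v) [NormedAddCommGroup X]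
    [NormedSpace ℂ X] where
  ρ : G →* (X →L[ℂ] X)
  M : ℝ
  bound : ∀ x, ‖ρ x‖ ≤ M
  cont : ∀ v, Continuous fun x => ρ x v

variable {G : Type u} [Group G] [TopologicalSpace G] [IsTopologicalGroup G] [CompactSpace G]
  [T2Space G] [MeasurableSpace G] [BorelSpace G]
variable {X : Type v} [NormedAddCommGroup X] [NormedSpace ℂ X] [CompleteSpace X]

section
variable (r : BRep G X)

theorem M_nonneg : 0 ≤ r.M := (norm_nonneg _).trans (r.bound 1)

theorem norm_ρ (x : G) (v : X) : ‖r.ρ x v‖ ≤ r.M * ‖v‖ :=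
  (r.ρ x).le_of_opNorm_le (r.bound x) v

theorem ρ_ρ (x y : G) (v : X) : r.ρ x (r.ρ y v) = r.ρ (x * y) v := by
  rw [map_mul]; rfl

theorem ρ_one (v : X) : r.ρ 1 v = v := by
  rw [map_one]; rfl

/-- the action is jointly continuous -/
theorem cont2 {Y : Type*} [TopologicalSpace Y] (a : Y → G) (b : Y → X) (ha : Continuous a)
    (hb : Continuous b) : Continuous fun y => r.ρ (a y) (b y) := by
  rw [continuous_iff_continuousAt]
  intro y₀
  have h1 : Tendsto (fun y => r.ρ (a y) (b y₀)) (𝓝 y₀) (𝓝 (r.ρ (a y₀) (b y₀))) :=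
    ((r.cont (b y₀)).comp ha).continuousAt
  have h2 : Tendsto (fun y => r.ρ (a y) (b y - b y₀)) (𝓝 y₀) (𝓝 0) := by
    rw [tendsto_zero_iff_norm_tendsto_zero]
    refine squeeze_zero (g := fun y => r.M * ‖b y - b y₀‖) (fun _ => norm_nonneg _)
      (fun y => norm_ρ r _ _) ?_
    have h3 : Continuous fun y => r.M * ‖b y - b y₀‖ := by fun_prop
    have h4 := h3.tendsto y₀
    simpa using h4
  have h3 := h1.add h2
  rw [add_zero] at h3
  refine h3.congr (fun y => ?_)
  rw [← map_add, add_sub_cancel]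

/-- `Co k v = ∫ k(y) ρ(y) v dy` -/
noncomputable def Co (k : C(G, ℂ)) : X →L[ℂ] X :=
  LinearMap.mkContinuous
    { toFun := fun g => ∫ y, k y • r.ρ y g ∂(hm G)
      map_add' := fun g h => by
        rw [← integral_add]
        · congr 1
          funext y
          rw [map_add, smul_add]
        · exact int_cont (k.continuous.smul (r.cont g))
        · exact int_cont (k.continuous.smul (r.cont h))
      map_smul' := fun c g => by
        rw [RingHom.id_apply, ← integral_smul]
        congr 1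
        funext y
        rw [map_smul, smul_comm] }
    (r.M * ∫ y, ‖k y‖ ∂(hm G)) (fun g => by
      change ‖∫ y, k y • r.ρ y g ∂(hm G)‖ ≤ _
      refine (norm_integral_le_integral_norm _).trans ?_
      have e : r.M * (∫ y, ‖k y‖ ∂(hm G)) * ‖g‖ = ∫ y, ‖k y‖ * (r.M * ‖g‖) ∂(hm G) := by
        rw [integral_mul_const]; ring
      rw [e]
      refine integral_mono (int_cont (k.continuous.smul (r.cont g))).norm
        (int_cont (k.continuous.norm.mul continuous_const)) (fun y => ?_)
      change ‖k y • r.ρ y g‖ ≤ ‖k y‖ * (r.M * ‖g‖)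
      rw [norm_smul]
      exact mul_le_mul_of_nonneg_left (norm_ρ r y g) (norm_nonneg _))

theorem Co_apply (k : C(G, ℂ)) (g : X) : Co r k g = ∫ y, k y • r.ρ y g ∂(hm G) := rfl

theorem norm_Co_le (k : C(G, ℂ)) : ‖Co r k‖ ≤ r.M * n1 k :=
  LinearMap.mkContinuous_norm_le _
    (mul_nonneg (M_nonneg r) (integral_nonneg (fun _ => norm_nonneg _))) _

theorem norm_Co_le' (k : C(G, ℂ)) : ‖Co r k‖ ≤ r.M * ‖k‖ := by
  refine (norm_Co_le r k).trans (mul_le_mul_of_nonneg_left ?_ (M_nonneg r))
  calc ∫ y, ‖k y‖ ∂(hm G) ≤ ∫ _y : G, ‖k‖ ∂(hm G) := by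
        apply integral_mono (int_cont k.continuous.norm) (integrable_const _)
        intro y
        exact k.norm_coe_le_norm y
    _ = ‖k‖ := by simp

theorem Co_add (k l : C(G, ℂ)) : Co r (k + l) = Co r k + Co r l := by
  ext1 g
  rw [add_apply, Co_apply, Co_apply, Co_apply, ← integral_add]
  · congr 1
    funext y
    rw [ContinuousMap.add_apply, add_smul]
  · exact int_cont (k.continuous.smul (r.cont g))
  · exact int_cont (l.continuous.smul (r.cont g))

theorem Co_smul (c : ℂ) (k : C(G, ℂ)) : Co r (c • k) = c • Co r k := by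
  ext1 g
  rw [smul_apply, Co_apply, Co_apply, ← integral_smul]
  congr 1
  funext y
  rw [ContinuousMap.smul_apply, smul_assoc]

theorem Co_sub (k l : C(G, ℂ)) : Co r (k - l) = Co r k - Co r l := by
  have : k - l = k + (-1 : ℂ) • l := by
    ext y
    simp [sub_eq_add_neg]
  rw [this, Co_add, Co_smul]
  simp [sub_eq_add_neg]

/-- operators commuting with the representation commute with `Co` -/
theorem comm_Co (T : X →L[ℂ] X) (hT : ∀ x g, T (r.ρ x g) = r.ρ x (T g)) (k : C(G, ℂ)) (g : X) :
    T (Co r k g) = Co r k (T g) := by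
  rw [Co_apply, Co_apply, ← ContinuousLinearMap.integral_comp_comm]
  · congr 1
    funext y
    rw [map_smul, hT]
  · exact int_cont (k.continuous.smul (r.cont g))

/-- left translation of functions -/
noncomputable def lt (x : G) (k : C(G, ℂ)) : C(G, ℂ) := ⟨fun y => k (x⁻¹ * y), by fun_prop⟩

theorem lt_apply (x : G) (k : C(G, ℂ)) (y : G) : lt x k y = k (x⁻¹ * y) := rfl

theorem ρ_Co (x : G) (k : C(G, ℂ)) (g : X) : r.ρ x (Co r k g) = Co r (lt x k) g := by
  rw [Co_apply, Co_apply, ← ContinuousLinearMap.integral_comp_comm]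
  · have h := integral_mul_left_eq_self (μ := hm G) (fun y => lt x k y • r.ρ y g) x
    rw [← h]
    congr 1
    funext y
    rw [map_smul, ρ_ρ, lt_apply, inv_mul_cancel_left]
  · exact int_cont (k.continuous.smul (r.cont g))

/-- `Co` of a class function commutes with the representation -/
theorem Co_ρ {k : C(G, ℂ)} (hk : IsCl k) (x : G) (g : X) :
    Co r k (r.ρ x g) = r.ρ x (Co r k g) := by
  rw [Co_apply, Co_apply, ← ContinuousLinearMap.integral_comp_comm]
  · have h := int_conj (fun y => k y • r.ρ y (r.ρ x g)) x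
    rw [← h]
    congr 1
    funext y
    rw [map_smul, ρ_ρ, ρ_ρ, hk.conj, inv_mul_cancel_right]
  · exact int_cont (k.continuous.smul (r.cont g))

/-- `Co` is multiplicative -/
theorem Co_cv (k l : C(G, ℂ)) (g : X) : Co r (cv k l) g = Co r k (Co r l g) := by
  have h1 : Co r (cv k l) g = ∫ x, (∫ y, (k y * l (y⁻¹ * x)) • r.ρ x g ∂(hm G)) ∂(hm G) := by
    rw [Co_apply]
    congr 1
    funext x
    rw [cv_apply, integral_smul_const]
  have h2 : Co r k (Co r l g) = ∫ y, (∫ x, (k y * l (y⁻¹ * x)) • r.ρ x g ∂(hm G)) ∂(hm G) := by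
    rw [Co_apply]
    congr 1
    funext y
    rw [ρ_Co, Co_apply, ← integral_smul]
    congr 1
    funext x
    rw [lt_apply, smul_smul]
  rw [h1, h2]
  apply swap
  have h3 : Continuous fun p : G × G => (k p.2 * l (p.2⁻¹ * p.1)) • r.ρ p.1 g := by
    refine Continuous.smul (by fun_prop) ((r.cont g).comp continuous_fst)
  exact h3

/-- the commutant -/
def Comm : Subalgebra ℂ (X →L[ℂ] X) := Subalgebra.centralizer ℂ (Set.range r.ρ)

theorem mem_Comm (T : X →L[ℂ] X) : T ∈ Comm r ↔ ∀ x g, T (r.ρ x g) = r.ρ x (T g) := by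
  unfold Comm
  rw [Subalgebra.mem_centralizer_iff]
  constructor
  · intro h x g
    have := h _ ⟨x, rfl⟩
    exact (DFunLike.congr_fun this g).symm
  · rintro h _ ⟨x, rfl⟩
    ext1 g
    exact (h x g).symm

/-- the isotypic component -/
def iso (e : C(G, ℂ)) : Submodule ℂ X where
  carrier := {v | Co r e v = v}
  add_mem' := fun {a b} ha hb => by
    change Co r e (a + b) = a + b
    rw [map_add, show Co r e a = a from ha, show Co r e b = b from hb]
  zero_mem' := map_zero _
  smul_mem' := fun c a ha => by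
    change Co r e (c • a) = c • a
    rw [map_smul, show Co r e a = a from ha]

theorem mem_iso (e : C(G, ℂ)) (v : X) : v ∈ iso r e ↔ Co r e v = v := Iff.rfl

theorem iso_closed (e : C(G, ℂ)) : IsClosed (iso r e : Set X) :=
  isClosed_eq (Co r e).continuous continuous_id

theorem Co_mem_iso {e : C(G, ℂ)} (he : IsMin e) (v : X) : Co r e v ∈ iso r e := by
  rw [mem_iso, ← Co_cv, he.idem]

theorem ρ_mem_iso {e : C(G, ℂ)} (he : IsMin e) (x : G) (v : X) (hv : v ∈ iso r e) :
    r.ρ x v ∈ iso r e := by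
  rw [mem_iso, Co_ρ r he.cl, (mem_iso r e v).1 hv]

theorem T_iso (T : X →L[ℂ] X) (hT : T ∈ Comm r) (e : C(G, ℂ)) (v : X) (hv : v ∈ iso r e) :
    T v ∈ iso r e := by
  rw [mem_iso, ← comm_Co r T ((mem_Comm r T).1 hT), (mem_iso r e v).1 hv]

/-- the averaged rank one operator `∫ ρ(y) (v ⊗ f) ρ(y)⁻¹ dy` -/
noncomputable def Av (v : X) (f : X →L[ℂ] ℂ) : X →L[ℂ] X :=
  LinearMap.mkContinuous
    { toFun := fun g => ∫ y, f (r.ρ y⁻¹ g) • r.ρ y v ∂(hm G)
      map_add' := fun g h => by
        rw [← integral_add]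
        · congr 1
          funext y
          rw [map_add, map_add, add_smul]
        · exact int_cont ((f.continuous.comp (cont2 r _ _ continuous_inv continuous_const)).smul
            (r.cont v))
        · exact int_cont ((f.continuous.comp (cont2 r _ _ continuous_inv continuous_const)).smul
            (r.cont v))
      map_smul' := fun c g => by
        rw [RingHom.id_apply, ← integral_smul]
        congr 1
        funext y
        rw [map_smul, map_smul, smul_eq_mul, mul_smul] }
    (‖f‖ * r.M * (r.M * ‖v‖)) (fun g => by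
      change ‖∫ y, f (r.ρ y⁻¹ g) • r.ρ y v ∂(hm G)‖ ≤ _
      have h1 := norm_integral_le_of_norm_le_const (μ := hm G)
        (f := fun y => f (r.ρ y⁻¹ g) • r.ρ y v) (C := ‖f‖ * r.M * (r.M * ‖v‖) * ‖g‖)
        (Filter.Eventually.of_forall fun y => by
          rw [norm_smul]
          have h2 : ‖f (r.ρ y⁻¹ g)‖ ≤ ‖f‖ * (r.M * ‖g‖) :=
            (f.le_opNorm _).trans (mul_le_mul_of_nonneg_left (norm_ρ r _ _) (norm_nonneg _))
          have h3 := norm_ρ r y v
          have hM := M_nonneg r
          calc ‖f (r.ρ y⁻¹ g)‖ * ‖r.ρ y v‖ ≤ (‖f‖ * (r.M * ‖g‖)) * (r.M * ‖v‖) :=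
                mul_le_mul h2 h3 (norm_nonneg _) (by positivity)
            _ = _ := by ring)
      simpa using h1)

theorem Av_apply (v : X) (f : X →L[ℂ] ℂ) (g : X) :
    Av r v f g = ∫ y, f (r.ρ y⁻¹ g) • r.ρ y v ∂(hm G) := rfl

theorem norm_Av (v : X) (f : X →L[ℂ] ℂ) : ‖Av r v f‖ ≤ ‖f‖ * r.M * (r.M * ‖v‖) := by
  have hM := M_nonneg r
  exact LinearMap.mkContinuous_norm_le _ (by positivity) _

theorem int_Av (v : X) (f : X →L[ℂ] ℂ) (g : X) :
    Integrable (fun y => f (r.ρ y⁻¹ g) • r.ρ y v) (hm G) :=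
  int_cont ((f.continuous.comp (cont2 r _ _ continuous_inv continuous_const)).smul (r.cont v))

theorem Av_mem (v : X) (f : X →L[ℂ] ℂ) : Av r v f ∈ Comm r := by
  rw [mem_Comm]
  intro x g
  rw [Av_apply, Av_apply, ← ContinuousLinearMap.integral_comp_comm _ (int_Av r v f g)]
  have h := integral_mul_left_eq_self (μ := hm G) (fun y => f (r.ρ y⁻¹ (r.ρ x g)) • r.ρ y v) x
  rw [← h]
  congr 1
  funext y
  rw [map_smul, ρ_ρ, ρ_ρ, mul_inv_rev, inv_mul_cancel_right]

theorem T_Av (T : X →L[ℂ] X) (hT : T ∈ Comm r) (v : X) (f : X →L[ℂ] ℂ) :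
    T * Av r v f = Av r (T v) f := by
  ext1 g
  change T (Av r v f g) = _
  rw [Av_apply, Av_apply, ← ContinuousLinearMap.integral_comp_comm _ (int_Av r v f g)]
  congr 1
  funext y
  rw [map_smul, (mem_Comm r T).1 hT]

end

end Pool.Agent.Y251.RQ
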