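import Mathlib

/-!
The trace of the restriction of an operator to a finite dimensional invariant subspace.
-/

set_option autoImplicit false

namespace Pool.Agent.Y251.RQ

universe v

variable {X : Type v} [NormedAddCommGroup X] [NormedSpace ℂ X]

theorem trace_bound (W : Submodule ℂ X) [FiniteDimensional ℂ W] (A : X →L[ℂ] X)
    (hA : ∀ w ∈ W, (A : X →ₗ[ℂ] X) w ∈ W) :
    ‖LinearMap.trace ℂ W ((A : X →ₗ[ℂ] X).restrict hA)‖ ≤ Module.finrank ℂ W * ‖A‖ := by
  classical
  set B : W →ₗ[ℂ] W := (A : X →ₗ[ℂ] X).restrict hA with hB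
  let b := Module.finBasis ℂ W
  have h1 : LinearMap.trace ℂ W B = (LinearMap.charpoly B).roots.sum := by
    rw [LinearMap.trace_eq_matrix_trace ℂ b B, Matrix.trace_eq_sum_roots_charpoly,
      LinearMap.charpoly_toMatrix]
  have h2 : ∀ z ∈ (LinearMap.charpoly B).roots, ‖z‖ ≤ ‖A‖ := by
    intro z hz
    have hr : (LinearMap.charpoly B).IsRoot z := (Polynomial.mem_roots'.1 hz).2
    have he : Module.End.HasEigenvalue B z := (Module.End.hasEigenvalue_iff_isRoot_charpoly B z).2 hr
    obtain ⟨w, hw⟩ := he.exists_hasEigenvector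
    have h3 : B w = z • w := hw.apply_eq_smul
    have h4 : A (w : X) = z • (w : X) := congrArg (fun u : W => (u : X)) h3
    have h5 : 0 < ‖(w : X)‖ := norm_pos_iff.2 (fun h => hw.2 (Subtype.ext h))
    have h6 : ‖z‖ * ‖(w : X)‖ ≤ ‖A‖ * ‖(w : X)‖ := by
      rw [← norm_smul, ← h4]
      exact A.le_opNorm _
    exact le_of_mul_le_mul_right h6 h5
  rw [h1]
  have h3 : ∀ s : Multiset ℂ, (∀ z ∈ s, ‖z‖ ≤ ‖A‖) → ‖s.sum‖ ≤ Multiset.card s * ‖A‖ := by
    intro s
    induction s using Multiset.induction_on with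
    | empty => intro _; simp
    | cons a s ih =>
      intro h
      rw [Multiset.sum_cons, Multiset.card_cons]
      refine (norm_add_le _ _).trans ?_
      have h4 := h a (Multiset.mem_cons_self a s)
      have h5 := ih (fun z hz => h z (Multiset.mem_cons_of_mem hz))
      push_cast
      linarith
  refine (h3 _ h2).trans ?_
  refine mul_le_mul_of_nonneg_right ?_ (norm_nonneg _)
  have h4 : Multiset.card (LinearMap.charpoly B).roots ≤ Module.finrank ℂ W := by
    refine (Polynomial.card_roots' _).trans ?_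
    rw [LinearMap.charpoly_natDegree]
  exact_mod_cast h4

end Pool.Agent.Y251.RQ
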