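import Pool.Agent.Y251.RQ.NRep
import Pool.Agent.Y251.RQ.NTr

/-!
Commutants of bounded strongly continuous representations of compact groups on Banach spaces,
part two: the averaged rank one operators are not small.
-/

set_option autoImplicit false
set_option linter.unusedSectionVars false
set_option linter.overlappingInstances false

open MeasureTheory Filter Topology
open H611R3.ZL

namespace Pool.Agent.Y251.RQ

universe u v w

variable {G : Type u} [Group G] [TopologicalSpace G] [IsTopologicalGroup G] [CompactSpace G]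
  [T2Space G] [MeasurableSpace G] [BorelSpace G]
variable {X : Type v} [NormedAddCommGroup X] [NormedSpace ℂ X] [CompleteSpace X]

theorem cv_lt {e : C(G, ℂ)} (he : IsMin e) (x : G) : cv e (lt x e) = lt x e := by
  rw [cv_comm he.cl]
  ext z
  rw [cv_apply, lt_apply]
  conv_rhs => rw [← he.idem, cv_apply]
  rw [← integral_mul_left_eq_self (μ := hm G) (fun y => lt x e y * e (y⁻¹ * z)) x]
  congr 1
  funext y
  rw [lt_apply, inv_mul_cancel_left, mul_inv_rev, mul_assoc]

theorem fin_left {e : C(G, ℂ)} (he : IsMin e) :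
    ∃ L : Submodule ℂ C(G, ℂ), FiniteDimensional ℂ L ∧ ∀ x, lt x e ∈ L := by
  let V : Submodule ℂ (H2 G) := Module.End.eigenspace (T e : Module.End ℂ (H2 G)) 1
  have hVfin : FiniteDimensional ℂ V :=
    ContinuousLinearMap.finite_dimensional_eigenspace (isCompactOperator_T e) 1 one_ne_zero
  have hVmem : ∀ v : H2 G, v ∈ V ↔ T e v = v := by
    intro v
    rw [Module.End.mem_eigenspace_iff, one_smul]
    rfl
  let c : C(G, ℂ) →ₗ[ℂ] H2 G := (cl2 : C(G, ℂ) →L[ℂ] H2 G).toLinearMap
  let L : Submodule ℂ C(G, ℂ) := V.comap c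
  have hLV : ∀ k ∈ L, c k ∈ V := fun k hk => hk
  refine ⟨L, ?_, fun x => ?_⟩
  · refine Module.Finite.of_injective (c.restrict hLV) ?_
    intro a b hab
    apply Subtype.ext
    apply cl2_inj
    exact congrArg (fun u : V => (u : H2 G)) hab
  · change cl2 (lt x e) ∈ V
    rw [hVmem, T_cl2, cv_lt he]

section
variable (r : BRep G X)

/-- the averaged rank one operators are not small -/
theorem Av_lower {e : C(G, ℂ)} (he : IsMin e) :
    ∃ D : ℝ, 0 < D ∧ ∀ v ∈ iso r e, ∀ f : X →L[ℂ] ℂ, ‖f v‖ ≤ D * ‖Av r v f‖ := by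
  classical
  obtain ⟨L, hL, hLe⟩ := fin_left he
  refine ⟨Module.finrank ℂ L + 1, by positivity, ?_⟩
  intro v hv f
  let Φ : C(G, ℂ) →ₗ[ℂ] X :=
    { toFun := fun k => Co r k v
      map_add' := fun k l => by rw [Co_add]; rfl
      map_smul' := fun c k => by rw [Co_smul]; rfl }
  let W : Submodule ℂ X := Submodule.span ℂ (Set.range fun x => r.ρ x v)
  have hWL : W ≤ L.map Φ := by
    refine Submodule.span_le.2 ?_
    rintro _ ⟨x, rfl⟩
    refine ⟨lt x e, hLe x, ?_⟩
    change Co r (lt x e) v = r.ρ x v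
    rw [← ρ_Co, (mem_iso r e v).1 hv]
  have hWfin : FiniteDimensional ℂ W := Submodule.finiteDimensional_of_le hWL
  have hfin : Module.finrank ℂ W ≤ Module.finrank ℂ L :=
    (Submodule.finrank_mono hWL).trans (Submodule.finrank_map_le Φ L)
  have hWc : CompleteSpace W := FiniteDimensional.complete ℂ W
  have hvW : ∀ x, r.ρ x v ∈ W := fun x => Submodule.subset_span ⟨x, rfl⟩
  let φ : G → W := fun y => ⟨r.ρ y v, hvW y⟩
  have hφ : Continuous φ := (r.cont v).subtype_mk _
  have hcf : ∀ g, Continuous fun y => f (r.ρ y⁻¹ g) := fun g =>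
    f.continuous.comp (cont2 r _ _ continuous_inv continuous_const)
  have hAW : ∀ g, Av r v f g = ((∫ y, f (r.ρ y⁻¹ g) • φ y ∂(hm G) : W) : X) := by
    intro g
    have h1 := W.subtypeL.integral_comp_comm (φ := fun y => f (r.ρ y⁻¹ g) • φ y) (μ := hm G)
      (int_cont ((hcf g).smul hφ))
    rw [Av_apply]
    exact h1
  have hA : ∀ w ∈ W, (Av r v f : X →ₗ[ℂ] X) w ∈ W := by
    intro w _
    change Av r v f w ∈ W
    rw [hAW]
    exact Subtype.mem _
  have htr : LinearMap.trace ℂ W ((Av r v f : X →ₗ[ℂ] X).restrict hA) = f v := by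
    let b := Module.finBasis ℂ W
    rw [LinearMap.trace_eq_matrix_trace ℂ b, Matrix.trace]
    have h1 : ∀ i, Matrix.diag (LinearMap.toMatrix b b
        ((Av r v f : X →ₗ[ℂ] X).restrict hA)) i =
        ∫ y, f (r.ρ y⁻¹ (b i : X)) * b.coord i (φ y) ∂(hm G) := by
      intro i
      rw [Matrix.diag_apply, LinearMap.toMatrix_apply]
      have h2 : ((Av r v f : X →ₗ[ℂ] X).restrict hA) (b i) =
          ∫ y, f (r.ρ y⁻¹ (b i : X)) • φ y ∂(hm G) := Subtype.ext (hAW (b i : X))
      rw [h2]
      let ci : W →L[ℂ] ℂ := LinearMap.toContinuousLinearMap (b.coord i)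
      have h3 := ci.integral_comp_comm (φ := fun y => f (r.ρ y⁻¹ (b i : X)) • φ y) (μ := hm G)
        (int_cont ((hcf _).smul hφ))
      have h4 : (b.repr (∫ y, f (r.ρ y⁻¹ (b i : X)) • φ y ∂(hm G))) i =
          ci (∫ y, f (r.ρ y⁻¹ (b i : X)) • φ y ∂(hm G)) := rfl
      rw [h4, ← h3]
      congr 1
      funext y
      rw [map_smul, smul_eq_mul]
      rfl
    rw [Finset.sum_congr rfl (fun i _ => h1 i), ← integral_finset_sum]
    · have h5 : ∀ y, ∑ i, f (r.ρ y⁻¹ (b i : X)) * b.coord i (φ y) = f v := by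
        intro y
        have h6 : (φ y : X) = ∑ i, b.coord i (φ y) • (b i : X) := by
          have h7 := b.sum_repr (φ y)
          have h8 := congrArg (fun u : W => (u : X)) h7
          simp only [Submodule.coe_sum, Submodule.coe_smul] at h8
          exact h8.symm
        have h9 : f (r.ρ y⁻¹ (φ y : X)) = f v := by
          change f (r.ρ y⁻¹ (r.ρ y v)) = f v
          rw [ρ_ρ, inv_mul_cancel, ρ_one]
        rw [← h9, h6, map_sum, map_sum]
        refine Finset.sum_congr rfl fun i _ => ?_
        rw [map_smul, map_smul, smul_eq_mul, mul_comm]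
      rw [integral_congr_ae (Filter.Eventually.of_forall h5)]
      simp
    · intro i _
      refine int_cont ((hcf _).mul ?_)
      exact (LinearMap.toContinuousLinearMap (b.coord i)).continuous.comp hφ
  have h1 := trace_bound W (Av r v f) hA
  rw [htr] at h1
  refine h1.trans (mul_le_mul_of_nonneg_right ?_ (norm_nonneg _))
  have : (Module.finrank ℂ W : ℝ) ≤ Module.finrank ℂ L := by exact_mod_cast hfin
  linarith

end

end Pool.Agent.Y251.RQ
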