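import Pool.Agent.Y251.RQ.NRep2

/-!
Commutants of bounded strongly continuous representations of compact groups on Banach spaces,
part three: spectral permanence.
-/

set_option autoImplicit false
set_option linter.unusedSectionVars false
set_option linter.overlappingInstances false

open MeasureTheory Filter Topology
open H611R3.ZL

namespace Pool.Agent.Y251.RQ

universe u v w

variable {G : Type u} [Group G] [TopologicalSpace G] [IsTopologicalGroup G] [CompactSpace G]
  [T2Space G] [MeasurableSpace G] [BorelSpace G]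
variable {X : Type v} [NormedAddCommGroup X] [NormedSpace ℂ X] [CompleteSpace X]

section
variable (r : BRep G X)

/-- approximation of the identity by central trigonometric polynomials -/
theorem approx (v : X) (δ : ℝ) (hδ : 0 < δ) :
    ∃ F ∈ trig G, ‖Co r F v - v‖ ≤ δ ∧ ‖Co r F‖ ≤ r.M * 2 := by
  have hM := M_nonneg r
  set ε : ℝ := δ / (2 * r.M + r.M * ‖v‖ + 1) with hε'
  have hpos : 0 < 2 * r.M + r.M * ‖v‖ + 1 := by positivity
  have hε : 0 < ε := div_pos hδ hpos
  let U : Set G := {y | ‖r.ρ y v - v‖ < ε}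
  have hUo : IsOpen U := isOpen_lt ((r.cont v).sub continuous_const).norm continuous_const
  have h1U : (1 : G) ∈ U := by
    change ‖r.ρ 1 v - v‖ < ε
    rw [ρ_one r v, sub_self, norm_zero]
    exact hε
  obtain ⟨φ, hφ0, hφ1, hφ⟩ := exists_continuous_zero_one_of_isClosed (X := G)
    hUo.isClosed_compl (isClosed_singleton (x := (1 : G)))
    (Set.disjoint_singleton_right.2 (by simpa using h1U))
  have hφ11 : φ 1 = 1 := hφ1 rfl
  have hφn : ∀ y, 0 ≤ φ y := fun y => (hφ y).1
  have hI : 0 < ∫ y, φ y ∂(hm G) := by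
    refine φ.continuous.integral_pos_of_hasCompactSupport_nonneg_nonzero
      (HasCompactSupport.of_compactSpace _) hφn (x := 1) ?_
    rw [hφ11]
    exact one_ne_zero
  set I : ℝ := ∫ y, φ y ∂(hm G) with hIdef
  let k : C(G, ℂ) := ⟨fun y => ((φ y / I : ℝ) : ℂ),
    Complex.continuous_ofReal.comp (φ.continuous.div_const I)⟩
  have hk : ∀ y, k y = ((φ y / I : ℝ) : ℂ) := fun _ => rfl
  have hknorm : ∀ y, ‖k y‖ = φ y / I := by
    intro y
    rw [hk, Complex.norm_real, Real.norm_eq_abs, abs_of_nonneg (div_nonneg (hφn y) hI.le)]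
  have hkint : ∫ y, ‖k y‖ ∂(hm G) = 1 := by
    simp_rw [hknorm]
    rw [integral_div, div_self hI.ne']
  have hkint' : ∫ y, k y ∂(hm G) = 1 := by
    have h0 : ∫ y, k y ∂(hm G) = ((∫ y, φ y / I ∂(hm G) : ℝ) : ℂ) := integral_ofReal
    rw [h0, integral_div, div_self hI.ne', Complex.ofReal_one]
  have hk1 : ‖Co r k v - v‖ ≤ ε := by
    have h1 : v = ∫ y, k y • v ∂(hm G) := by
      rw [integral_smul_const, hkint', one_smul]
    have h2 : Co r k v - v = ∫ y, k y • (r.ρ y v - v) ∂(hm G) := by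
      conv_lhs => rw [Co_apply]
      conv_lhs => arg 2; rw [h1]
      rw [← integral_sub]
      · congr 1
        funext y
        rw [smul_sub]
      · exact int_cont (k.continuous.smul (r.cont v))
      · exact int_cont (k.continuous.smul continuous_const)
    rw [h2]
    refine (norm_integral_le_integral_norm _).trans ?_
    calc ∫ y, ‖k y • (r.ρ y v - v)‖ ∂(hm G) ≤ ∫ y, ‖k y‖ * ε ∂(hm G) := by
          apply integral_mono
          · exact (int_cont
              (k.continuous.smul ((r.cont v).sub continuous_const))).norm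
          · exact int_cont (k.continuous.norm.mul continuous_const)
          · intro y
            change ‖k y • (r.ρ y v - v)‖ ≤ ‖k y‖ * ε
            rw [norm_smul]
            by_cases hy : y ∈ U
            · exact mul_le_mul_of_nonneg_left (le_of_lt hy) (norm_nonneg _)
            · have : φ y = 0 := hφ0 hy
              rw [hknorm, this]
              simp
      _ = ε := by rw [integral_mul_const, hkint, one_mul]
  obtain ⟨F, hF, hF2, hkF⟩ := approx_trig {k} hε
  have hkF' : ‖cv F k - k‖ ≤ ε := hkF k (Finset.mem_singleton_self k)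
  have hFn : ‖Co r F‖ ≤ r.M * 2 := (norm_Co_le r F).trans (mul_le_mul_of_nonneg_left hF2 hM)
  refine ⟨F, hF, ?_, hFn⟩
  have h1 : Co r F v - v = Co r (cv F k - k) v + (Co r k v - v) - Co r F (Co r k v - v) := by
    rw [Co_sub]
    change _ = (Co r (cv F k) v - Co r k v) + _ - _
    rw [Co_cv, map_sub]
    abel
  rw [h1]
  have h2 : ‖Co r (cv F k - k) v‖ ≤ r.M * ε * ‖v‖ :=
    ((Co r _).le_opNorm v).trans (mul_le_mul_of_nonneg_right
      ((norm_Co_le' r _).trans (mul_le_mul_of_nonneg_left hkF' hM)) (norm_nonneg _))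
  have h3 : ‖Co r F (Co r k v - v)‖ ≤ r.M * 2 * ε :=
    ((Co r F).le_opNorm _).trans (mul_le_mul hFn hk1 (norm_nonneg _) (by positivity))
  have h4 : ε * (2 * r.M + r.M * ‖v‖ + 1) = δ := by
    rw [hε', div_mul_cancel₀ _ hpos.ne']
  calc ‖Co r (cv F k - k) v + (Co r k v - v) - Co r F (Co r k v - v)‖
      ≤ ‖Co r (cv F k - k) v + (Co r k v - v)‖ + ‖Co r F (Co r k v - v)‖ := norm_sub_le _ _
    _ ≤ (‖Co r (cv F k - k) v‖ + ‖Co r k v - v‖) + ‖Co r F (Co r k v - v)‖ := by
        gcongr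
        exact norm_add_le _ _
    _ ≤ (r.M * ε * ‖v‖ + ε) + r.M * 2 * ε := by gcongr
    _ = ε * (2 * r.M + r.M * ‖v‖ + 1) := by ring
    _ = δ := h4

section bb
variable (T : X →L[ℂ] X) (hT : T ∈ Comm r) (c : ℝ) (hc : 0 < c)
  (hS : ∀ S ∈ Comm r, c * ‖S‖ ≤ ‖T * S‖) (hS' : ∀ S ∈ Comm r, c * ‖S‖ ≤ ‖S * T‖)
include hT hc hS

theorem bb_iso {e : C(G, ℂ)} (he : IsMin e) :
    ∃ c' : ℝ, 0 < c' ∧ ∀ v ∈ iso r e, c' * ‖v‖ ≤ ‖T v‖ := by
  obtain ⟨D, hD, hDv⟩ := Av_lower r he
  have hM := M_nonneg r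
  refine ⟨c / (D * (r.M * r.M + 1)), by positivity, ?_⟩
  intro v hv
  obtain ⟨f, hf1, hf2⟩ := exists_dual_vector'' ℂ v
  have h1 := hDv v hv f
  have h2 := hS _ (Av_mem r v f)
  rw [T_Av r T hT] at h2
  have h3 := norm_Av r (T v) f
  have h4 : ‖f v‖ = ‖v‖ := by rw [hf2]; simp
  rw [h4] at h1
  have h5 : ‖Av r (T v) f‖ ≤ (r.M * r.M + 1) * ‖T v‖ := by
    refine h3.trans ?_
    have h6 : ‖f‖ * r.M * (r.M * ‖T v‖) = ‖f‖ * (r.M * r.M * ‖T v‖) := by ring
    rw [h6]
    calc ‖f‖ * (r.M * r.M * ‖T v‖) ≤ 1 * (r.M * r.M * ‖T v‖) :=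
          mul_le_mul_of_nonneg_right hf1 (by positivity)
      _ ≤ (r.M * r.M + 1) * ‖T v‖ := by nlinarith [norm_nonneg (T v)]
  rw [div_mul_eq_mul_div, div_le_iff₀ (by positivity)]
  calc c * ‖v‖ ≤ c * (D * ‖Av r v f‖) := mul_le_mul_of_nonneg_left h1 hc.le
    _ = D * (c * ‖Av r v f‖) := by ring
    _ ≤ D * ((r.M * r.M + 1) * ‖T v‖) := mul_le_mul_of_nonneg_left (h2.trans h5) hD.le
    _ = ‖T v‖ * (D * (r.M * r.M + 1)) := by ring

include hS'

theorem surj_iso {e : C(G, ℂ)} (he : IsMin e) (v : X) (hv : v ∈ iso r e) :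
    ∃ u ∈ iso r e, T u = v := by
  have : CompleteSpace (iso r e) := (iso_closed r e).completeSpace_coe
  obtain ⟨c', hc', hbb⟩ := bb_iso r T hT c hc hS he
  let E : iso r e →L[ℂ] X := T.comp (iso r e).subtypeL
  have hanti : AntilipschitzWith (Real.toNNReal c'⁻¹) E := by
    apply ContinuousLinearMap.antilipschitz_of_bound
    intro f
    have h := hbb f f.2
    rw [Real.coe_toNNReal _ (inv_nonneg.2 hc'.le), inv_mul_eq_div, le_div_iff₀ hc', mul_comm]
    exact h
  have hcl : IsClosed (Set.range E) := hanti.isClosed_range E.uniformContinuous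
  by_contra hcon
  push Not at hcon
  let p : Submodule ℂ X := LinearMap.range (E : iso r e →ₗ[ℂ] X)
  have hp : IsClosed (p : Set X) := hcl
  have hvp : v ∉ p := by
    rintro ⟨u, hu⟩
    exact hcon u u.2 hu
  obtain ⟨g, hg⟩ := SeparatingDual.exists_ne_zero (R := ℂ) (x := p.mkQ v)
    (by rw [Ne, Submodule.mkQ_apply, Submodule.Quotient.mk_eq_zero]; exact hvp)
  let f : X →L[ℂ] ℂ := g.comp p.mkQL
  have hf0 : ∀ u ∈ iso r e, f (T u) = 0 := by
    intro u hu
    change g (p.mkQ (T u)) = 0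
    have : p.mkQ (T u) = 0 := by
      rw [Submodule.mkQ_apply, Submodule.Quotient.mk_eq_zero]
      exact ⟨⟨u, hu⟩, rfl⟩
    rw [this, map_zero]
  let f' : X →L[ℂ] ℂ := f.comp (Co r e)
  have h1 := hS' _ (Av_mem r v f')
  have h2 : Av r v f' * T = 0 := by
    ext1 w
    change Av r v f' (T w) = 0
    rw [Av_apply]
    have h3 : ∀ y, f' (r.ρ y⁻¹ (T w)) • r.ρ y v = 0 := by
      intro y
      have h4 : f' (r.ρ y⁻¹ (T w)) = 0 := by
        change f (Co r e (r.ρ y⁻¹ (T w))) = 0
        rw [← (mem_Comm r T).1 hT, ← comm_Co r T ((mem_Comm r T).1 hT)]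
        exact hf0 _ (Co_mem_iso r he _)
      rw [h4, zero_smul]
    rw [integral_congr_ae (Filter.Eventually.of_forall h3)]
    simp
  rw [h2, norm_zero] at h1
  have h3 : ‖Av r v f'‖ = 0 := by
    have := norm_nonneg (Av r v f')
    nlinarith
  obtain ⟨D, hD, hDv⟩ := Av_lower r he
  have h4 := hDv v hv f'
  rw [h3, mul_zero] at h4
  have h5 : f' v = 0 := norm_eq_zero.1 (le_antisymm h4 (norm_nonneg _))
  have h6 : f' v = g (p.mkQ v) := by
    change g (p.mkQ (Co r e v)) = _
    rw [(mem_iso r e v).1 hv]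
  rw [h6] at h5
  exact hg h5

/-- the inverse on an isotypic component, composed with the projection -/
theorem solve_iso {e : C(G, ℂ)} (he : IsMin e) :
    ∃ S ∈ Comm r, T * S = Co r e ∧ S * T = Co r e := by
  have hcs : CompleteSpace (iso r e) := (iso_closed r e).completeSpace_coe
  obtain ⟨c', hc', hbb⟩ := bb_iso r T hT c hc hS he
  let t : iso r e →L[ℂ] iso r e := (T.comp (iso r e).subtypeL).codRestrict (iso r e)
    (fun v => T_iso r T hT e v v.2)
  have ht : ∀ v : iso r e, ((t v : iso r e) : X) = T v := fun v => rfl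
  have hinj : Function.Injective t := by
    rw [injective_iff_map_eq_zero]
    intro v hv
    have h1 := hbb v v.2
    have h2 : T v = 0 := by rw [← ht, hv]; rfl
    rw [h2, norm_zero] at h1
    have h3 : ‖(v : X)‖ = 0 := by
      have := norm_nonneg (v : X)
      nlinarith
    exact Subtype.ext (norm_eq_zero.1 h3)
  have hsur : Function.Surjective t := by
    intro v
    obtain ⟨u, hu, huv⟩ := surj_iso r T hT c hc hS hS' he v v.2
    exact ⟨⟨u, hu⟩, Subtype.ext huv⟩
  let E := ContinuousLinearEquiv.ofBijective t (LinearMap.ker_eq_bot.2 hinj)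
    (LinearMap.range_eq_top.2 hsur)
  have h1 : ∀ v, E.symm (t v) = v := fun v =>
    ContinuousLinearEquiv.ofBijective_symm_apply_apply t _ _ v
  have h2 : ∀ v, t (E.symm v) = v := fun v =>
    ContinuousLinearEquiv.ofBijective_apply_symm_apply t _ _ v
  let P : X →L[ℂ] iso r e := (Co r e).codRestrict (iso r e) (fun v => Co_mem_iso r he v)
  have hP : ∀ v, ((P v : iso r e) : X) = Co r e v := fun v => rfl
  let R : iso r e →L[ℂ] iso r e := (E.symm : iso r e →L[ℂ] iso r e)
  let S : X →L[ℂ] X := (iso r e).subtypeL.comp (R.comp P)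
  have hSv : ∀ v, S v = ((E.symm (P v) : iso r e) : X) := fun v => rfl
  have hPT : ∀ v, P (T v) = t (P v) := by
    intro v
    apply Subtype.ext
    rw [ht, hP, hP]
    exact (comm_Co r T ((mem_Comm r T).1 hT) _ v).symm
  refine ⟨S, ?_, ?_, ?_⟩
  · rw [mem_Comm]
    intro x g
    let a : iso r e := ⟨r.ρ x (E.symm (P g)), ρ_mem_iso r he x _ (E.symm (P g)).2⟩
    have h3 : t a = P (r.ρ x g) := by
      apply Subtype.ext
      rw [ht, hP]
      change T (r.ρ x (E.symm (P g) : iso r e)) = _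
      rw [(mem_Comm r T).1 hT, ← ht, h2, hP, Co_ρ r he.cl]
    rw [hSv, ← h3, h1, hSv]
  · ext1 g
    change T (S g) = _
    rw [hSv, ← ht, h2, hP]
  · ext1 g
    change S (T g) = _
    rw [hSv, hPT, h1, hP]

theorem solve_Co (F : C(G, ℂ)) (hF : F ∈ trig G) :
    ∃ S ∈ Comm r, T * S = Co r F ∧ S * T = Co r F := by
  induction hF using Submodule.span_induction with
  | mem x hx => exact solve_iso r T hT c hc hS hS' hx
  | zero =>
    refine ⟨0, (Comm r).zero_mem, ?_⟩
    rw [mul_zero, zero_mul]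
    have := Co_smul r 0 (0 : C(G, ℂ))
    rw [zero_smul, zero_smul] at this
    exact ⟨this.symm, this.symm⟩
  | add x y _ _ hx hy =>
    obtain ⟨S, hS1, hS2, hS3⟩ := hx
    obtain ⟨R, hR1, hR2, hR3⟩ := hy
    refine ⟨S + R, (Comm r).add_mem hS1 hR1, ?_, ?_⟩
    · rw [mul_add, hS2, hR2, Co_add]
    · rw [add_mul, hS3, hR3, Co_add]
  | smul a x _ hx =>
    obtain ⟨S, hS1, hS2, hS3⟩ := hx
    refine ⟨a • S, (Comm r).smul_mem hS1 _, ?_, ?_⟩
    · rw [mul_smul_comm, hS2, Co_smul]
    · rw [smul_mul_assoc, hS3, Co_smul]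

/-- `T` is bounded below -/
theorem bounded_below (f : X) : c * ‖f‖ ≤ r.M * 2 * ‖T f‖ := by
  have hM := M_nonneg r
  have key : ∀ δ : ℝ, 0 < δ → c * ‖f‖ ≤ r.M * 2 * ‖T f‖ + c * δ := by
    intro δ hδ
    obtain ⟨F, hF, hF1, hF2⟩ := approx r f δ hδ
    obtain ⟨S, hSM, hTS, hST⟩ := solve_Co r T hT c hc hS hS' F hF
    have hSn : c * ‖S‖ ≤ r.M * 2 := (hS S hSM).trans (by rw [hTS]; exact hF2)
    have hFf : ‖Co r F f‖ ≤ ‖S‖ * ‖T f‖ := by
      rw [← hST]
      exact S.le_opNorm (T f)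
    have hlow : ‖f‖ - δ ≤ ‖Co r F f‖ := by
      have h1 : ‖f‖ ≤ ‖Co r F f‖ + ‖Co r F f - f‖ := by
        have := norm_sub_le (Co r F f) (Co r F f - f)
        rwa [sub_sub_cancel] at this
      linarith
    have h5 : c * (‖f‖ - δ) ≤ r.M * 2 * ‖T f‖ :=
      calc c * (‖f‖ - δ) ≤ c * ‖Co r F f‖ := mul_le_mul_of_nonneg_left hlow hc.le
        _ ≤ c * (‖S‖ * ‖T f‖) := mul_le_mul_of_nonneg_left hFf hc.le
        _ = (c * ‖S‖) * ‖T f‖ := by ring
        _ ≤ _ := mul_le_mul_of_nonneg_right hSn (norm_nonneg _)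
    linarith
  refine le_of_forall_pos_le_add (fun η hη => ?_)
  have h := key (η / c) (div_pos hη hc)
  rwa [mul_div_cancel₀ _ hc.ne'] at h

/-- the inverse -/
theorem exists_inverse : ∃ R ∈ Comm r, T * R = 1 ∧ R * T = 1 := by
  have hM := M_nonneg r
  have hM1 : 0 < r.M * 2 + 1 := by linarith
  have hb : ∀ f, c / (r.M * 2 + 1) * ‖f‖ ≤ ‖T f‖ := by
    intro f
    have h := bounded_below r T hT c hc hS hS' f
    rw [div_mul_eq_mul_div, div_le_iff₀ hM1]
    nlinarith [norm_nonneg (T f)]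
  have hc' : 0 < c / (r.M * 2 + 1) := div_pos hc hM1
  have hinj : Function.Injective T := by
    rw [injective_iff_map_eq_zero]
    intro f hf
    have h := hb f
    rw [hf, norm_zero] at h
    have h2 := norm_nonneg f
    have : ‖f‖ = 0 := by nlinarith
    exact norm_eq_zero.1 this
  have hanti : AntilipschitzWith (Real.toNNReal (c / (r.M * 2 + 1))⁻¹) T := by
    apply ContinuousLinearMap.antilipschitz_of_bound
    intro f
    have h := hb f
    rw [Real.coe_toNNReal _ (inv_nonneg.2 hc'.le), inv_mul_eq_div, le_div_iff₀ hc', mul_comm]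
    exact h
  have hcl : IsClosed (Set.range T) := hanti.isClosed_range T.uniformContinuous
  have hsur : Function.Surjective T := by
    intro v
    have hv : v ∈ closure (Set.range T) := by
      rw [Metric.mem_closure_iff]
      intro δ hδ
      obtain ⟨F, hF, hF1, -⟩ := approx r v (δ / 2) (by positivity)
      obtain ⟨S, hSM, hTS, -⟩ := solve_Co r T hT c hc hS hS' F hF
      refine ⟨Co r F v, ⟨S v, ?_⟩, ?_⟩
      · rw [← hTS]; rfl
      · rw [dist_comm, dist_eq_norm]
        refine lt_of_le_of_lt hF1 ?_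
        linarith
    rw [hcl.closure_eq] at hv
    exact hv
  have hker : LinearMap.ker (T : X →ₗ[ℂ] X) = ⊥ := LinearMap.ker_eq_bot.2 hinj
  have hran : LinearMap.range (T : X →ₗ[ℂ] X) = ⊤ := LinearMap.range_eq_top.2 hsur
  let e := ContinuousLinearEquiv.ofBijective T hker hran
  have h1 : ∀ g, e.symm (T g) = g := fun g =>
    ContinuousLinearEquiv.ofBijective_symm_apply_apply T hker hran g
  have h2 : ∀ g, T (e.symm g) = g := fun g =>
    ContinuousLinearEquiv.ofBijective_apply_symm_apply T hker hran g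
  refine ⟨(e.symm : X →L[ℂ] X), ?_, ?_, ?_⟩
  · rw [mem_Comm]
    intro x g
    change e.symm (r.ρ x g) = r.ρ x (e.symm g)
    have h3 : T (r.ρ x (e.symm g)) = r.ρ x g := by
      rw [(mem_Comm r T).1 hT, h2]
    rw [← h3, h1]
  · ext1 g
    exact h2 g
  · ext1 g
    exact h1 g

end bb

/-- a noninvertible element of the commutant is a left or right topological divisor of zero -/
theorem exists_small (T : Comm r) (hT : ¬ IsUnit T) (c : ℝ) (hc : 0 < c) :
    ∃ S : Comm r, ‖S‖ = 1 ∧ (‖T * S‖ < c ∨ ‖S * T‖ < c) := by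
  by_contra hcon
  push Not at hcon
  apply hT
  have hred : ∀ S ∈ Comm r, c * ‖S‖ ≤ ‖(T : X →L[ℂ] X) * S‖ ∧ c * ‖S‖ ≤ ‖S * (T : X →L[ℂ] X)‖ := by
    intro S hSM
    by_cases h0 : S = 0
    · subst h0
      simp
    · have hn : 0 < ‖S‖ := norm_pos_iff.2 h0
      let S' : Comm r := ⟨((‖S‖⁻¹ : ℝ) : ℂ) • S, (Comm r).smul_mem hSM _⟩
      have h1 : ‖S'‖ = 1 := by
        change ‖((‖S‖⁻¹ : ℝ) : ℂ) • S‖ = 1
        rw [norm_smul, Complex.norm_real, Real.norm_eq_abs, abs_of_pos (inv_pos.2 hn),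
          inv_mul_cancel₀ hn.ne']
      obtain ⟨h2, h2'⟩ := hcon S' h1
      have h3 : ‖T * S'‖ = ‖S‖⁻¹ * ‖(T : X →L[ℂ] X) * S‖ := by
        change ‖(T : X →L[ℂ] X) * (((‖S‖⁻¹ : ℝ) : ℂ) • S)‖ = _
        rw [mul_smul_comm, norm_smul, Complex.norm_real, Real.norm_eq_abs,
          abs_of_pos (inv_pos.2 hn)]
      have h3' : ‖S' * T‖ = ‖S‖⁻¹ * ‖S * (T : X →L[ℂ] X)‖ := by
        change ‖(((‖S‖⁻¹ : ℝ) : ℂ) • S) * (T : X →L[ℂ] X)‖ = _
        rw [smul_mul_assoc, norm_smul, Complex.norm_real, Real.norm_eq_abs,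
          abs_of_pos (inv_pos.2 hn)]
      rw [h3, inv_mul_eq_div, le_div_iff₀ hn] at h2
      rw [h3', inv_mul_eq_div, le_div_iff₀ hn] at h2'
      exact ⟨h2, h2'⟩
  obtain ⟨R, hR, h1, h2⟩ := exists_inverse r (T : X →L[ℂ] X) T.2 c hc
    (fun S hS => (hred S hS).1) (fun S hS => (hred S hS).2)
  refine ⟨⟨T, ⟨R, hR⟩, Subtype.ext h1, Subtype.ext h2⟩, rfl⟩

/-- spectral permanence -/
theorem spectral_permanence (B : Type w) [NormedRing B] [NormedAlgebra ℂ B]
    (j : Comm r →ₐ[ℂ] B) (hj : IsEmbedding j) (T : Comm r) :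
    spectrum ℂ (j T) = spectrum ℂ T := by
  apply Set.Subset.antisymm
  · exact AlgHom.spectrum_apply_subset j T
  · intro z hz hu
    rw [spectrum.mem_iff] at hz
    set A : Comm r := algebraMap ℂ (Comm r) z - T with hA
    choose S hS1 hS2 using fun n : ℕ =>
      exists_small r A hz (1 / ((n : ℝ) + 1)) (by positivity)
    rw [spectrum.mem_resolventSet_iff] at hu
    obtain ⟨b, hb⟩ := hu.exists_left_inv
    obtain ⟨b', hb'⟩ := hu.exists_right_inv
    have hjA : j A = algebraMap ℂ B z - j T := by rw [hA, map_sub, AlgHom.commutes]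
    rw [← hjA] at hb hb'
    have hmin : Tendsto (fun n => min ‖A * S n‖ ‖S n * A‖) atTop (𝓝 0) := by
      refine squeeze_zero (fun n => le_min (norm_nonneg _) (norm_nonneg _)) (fun n => ?_)
        tendsto_one_div_add_atTop_nhds_zero_nat
      rcases hS2 n with h | h
      · exact (min_le_left _ _).trans h.le
      · exact (min_le_right _ _).trans h.le
    let Q : ℕ → Comm r := fun n => if ‖A * S n‖ ≤ ‖S n * A‖ then A * S n else S n * A
    have hQ : ∀ n, ‖Q n‖ = min ‖A * S n‖ ‖S n * A‖ := by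
      intro n
      by_cases h : ‖A * S n‖ ≤ ‖S n * A‖
      · simp only [Q, if_pos h, min_eq_left h]
      · simp only [Q, if_neg h, min_eq_right (not_le.1 h).le]
    have hQ0 : Tendsto Q atTop (𝓝 0) := by
      rw [tendsto_zero_iff_norm_tendsto_zero]
      exact hmin.congr (fun n => (hQ n).symm)
    have hjQ : Tendsto (fun n => j (Q n)) atTop (𝓝 0) := by
      have := (hj.continuous.tendsto 0).comp hQ0
      rwa [map_zero] at this
    have hle : ∀ n, ‖j (S n)‖ ≤ (‖b‖ + ‖b'‖) * ‖j (Q n)‖ := by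
      intro n
      by_cases h : ‖A * S n‖ ≤ ‖S n * A‖
      · have h1 : j (S n) = b * j (Q n) := by
          simp only [Q, if_pos h]
          rw [map_mul, ← mul_assoc, hb, one_mul]
        rw [h1]
        refine (norm_mul_le _ _).trans ?_
        have := norm_nonneg b'
        have := norm_nonneg (j (Q n))
        nlinarith
      · have h1 : j (S n) = j (Q n) * b' := by
          simp only [Q, if_neg h]
          rw [map_mul, mul_assoc, hb', mul_one]
        rw [h1]
        refine (norm_mul_le _ _).trans ?_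
        have := norm_nonneg b
        have := norm_nonneg (j (Q n))
        nlinarith
    have hjS : Tendsto (fun n => j (S n)) atTop (𝓝 (j 0)) := by
      rw [map_zero, tendsto_zero_iff_norm_tendsto_zero]
      refine squeeze_zero (fun n => norm_nonneg _) hle ?_
      have := hjQ.norm.const_mul (‖b‖ + ‖b'‖)
      rwa [norm_zero, mul_zero] at this
    have h5 : Tendsto S atTop (𝓝 0) := hj.tendsto_nhds_iff.2 hjS
    have h6 : Tendsto (fun n => ‖S n‖) atTop (𝓝 ‖(0 : Comm r)‖) := h5.norm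
    have h7 : (fun n => ‖S n‖) = fun _ => (1 : ℝ) := funext hS1
    have h8 : ‖(0 : Comm r)‖ = 0 := by
      change ‖(0 : X →L[ℂ] X)‖ = 0
      exact norm_zero
    rw [h7, h8] at h6
    exact one_ne_zero (tendsto_nhds_unique tendsto_const_nhds h6)

end

end Pool.Agent.Y251.RQ
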